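import Pool.Agent.W5h23.CP.Family

/-!
# Elliott's conjecture for random multiplicative functions and their small random perturbations

Let `F_1, …, F_k` be random multiplicative functions with values in the unit disc whose values at
the powers of different primes are independent (some of them may be deterministic, and they may
depend on each other). We prove that the correlations `(1/N) ∑_{n ≤ N} g(n) ∏ F_i(n + h_i)`, with
the usual (not logarithmic) averages, are small at ALL scales `N`, as soon as the randomness of one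
of the functions at the primes in the windows `(log log N, N]` is not negligible,
`∑_{log log N < p ≤ N} (1 - |E F_1(p)|)/p → ∞`; the divergence may be as slow as one likes. For
instance `F_1 = f X` with any multiplicative `f` (even `f = 1`) and random signs `X(p)` that are `-1`
with probabilities `δ_p`, `∑_{log log N < p ≤ N} δ_p / p → ∞`.

Method: McDiarmid's inequality. The correlation is changed by at most `2 k (N + H)/p` if the
values at the powers of the prime `p` are changed, so that the primes `p > y` contribute at most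
`4 k² (N + H)² / y` to the variance; and after averaging over the values at the primes `p > y` one
is left with the mean of the multiplicative function `∏_{p ∥ n, p > y} |E F_1(p)|`.
-/

set_option autoImplicit false

open MeasureTheory ProbabilityTheory Finset Filter Topology

namespace Pool.Agent.Results.MP_f3f922_nt.RandomFunctions

/-- `F 0, …, F (k - 1)` are multiplicative functions with values in the unit disc that depend on a
random `ω ∈ Ω`, and the families of the values `F i (p ^ a)` (`i < k`, `a ≥ 1`) that belong to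
different primes `p` are independent of each other. -/
structure RandomTuple {Ω : Type} [MeasurableSpace Ω] (P : Measure Ω) {k : ℕ}
    (F : Fin k → ℕ → Ω → ℂ) : Prop where
  meas : ∀ i n, Measurable (F i n)
  bdd : ∀ i n ω, ‖F i n ω‖ ≤ 1
  one : ∀ i ω, F i 1 ω = 1
  mul : ∀ i ω m n, Nat.Coprime m n → F i (m * n) ω = F i m ω * F i n ω
  indep : iIndepFun (fun (p : Nat.Primes) (ω : Ω) (q : Fin k × ℕ) =>
    F q.1 ((p : ℕ) ^ (q.2 + 1)) ω) P

/-- `R_i(y, N) = ∑_{y < p ≤ N} (1 - |E F_i(p)|) / p` -/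
noncomputable def R {Ω : Type} [MeasurableSpace Ω] (P : Measure Ω) {k : ℕ}
    (F : Fin k → ℕ → Ω → ℂ) (i : Fin k) (y : ℝ) (N : ℕ) : ℝ :=
  ∑ p ∈ (Icc 1 N).filter (fun p : ℕ => p.Prime ∧ y < (p : ℝ)), (1 - ‖∫ ω, F i p ω ∂P‖) / p

/-- the correlation `(1/N) ∑_{n ≤ N} g(n) ∏_i F_i(n + h_i)` -/
noncomputable def T {Ω : Type} {k : ℕ} (F : Fin k → ℕ → Ω → ℂ) (g : ℕ → ℂ) (h : Fin k → ℕ)
    (N : ℕ) (ω : Ω) : ℂ :=
  (1 / (N : ℂ)) * ∑ n ∈ Icc 1 N, g n * ∏ i, F i (n + h i) ω

theorem R_eq {Ω : Type} [MeasurableSpace Ω] (P : Measure Ω) {k : ℕ}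
    (F : Fin k → ℕ → Ω → ℂ) (i : Fin k) (y : ℝ) (N : ℕ) :
    R P F i y N = Pool.Agent.W5h23.CP.Dw (Pool.Agent.W5h23.CP.mn P F i) y N := by
  unfold R Pool.Agent.W5h23.CP.Dw Pool.Agent.W5h23.CP.mn Pool.Agent.W5h23.CP.PP
  rw [Finset.filter_filter]

theorem rm {Ω : Type} [MeasurableSpace Ω] {P : Measure Ω} {k : ℕ}
    {F : Fin k → ℕ → Ω → ℂ} (h : RandomTuple P F) : Pool.Agent.W5h23.CP.RandMult P F :=
  ⟨h.meas, h.bdd, h.one, h.mul, h.indep⟩

/-- **Theorem.**
1. (One scale.) With an absolute constant `C`: for every tuple of random multiplicative functions,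
every `i`, every finite set `𝒢` of weights bounded by `1`, all `H ≤ min(y, N)` and `ε ≥ 0`, the
probability that `|T| ≥ ε + C exp(-R_i(y, N))` for some distinct shifts `h_1, …, h_k ≤ H` and some
`g ∈ 𝒢` is at most `4 (H + 1)^k |𝒢| exp(-ε² y / (128 k²))`.
2. (All scales.) If `R_i(log log N, N) → ∞` for some `i`, then for every weight `g` bounded by `1`,
almost surely `T → 0` as `N → ∞` through all integers, for all distinct shifts.
3. (All scales, uniformly in the shifts and weights.) If `w(N) ≥ log N` and `R_i(w(N), N) → ∞` for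
some `i`, and `𝒢_N` are finite sets of weights bounded by `1` with `|𝒢_N| ≤ exp(w(N))`, then
almost surely `T → 0` uniformly in the distinct shifts `h_1, …, h_k ≤ w(N)` and `g ∈ 𝒢_N`. -/
theorem result :
    (∃ C : ℝ, 0 < C ∧ ∀ (Ω : Type) [MeasurableSpace Ω] (P : Measure Ω) [IsProbabilityMeasure P]
      (k : ℕ) (F : Fin k → ℕ → Ω → ℂ), RandomTuple P F → ∀ (i : Fin k) (𝒢 : Finset (ℕ → ℂ)),
      (∀ g ∈ 𝒢, ∀ n, ‖g n‖ ≤ 1) → ∀ N y H : ℕ, 1 ≤ N → 1 ≤ y → H ≤ N → H ≤ y →
      ∀ ε : ℝ, 0 ≤ ε →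
      P.real {ω | ∃ h : Fin k → ℕ, Function.Injective h ∧ (∀ j, h j ≤ H) ∧ ∃ g ∈ 𝒢,
        C * Real.exp (-R P F i y N) + ε ≤ ‖T F g h N ω‖} ≤
        4 * ((H : ℝ) + 1) ^ k * (𝒢.card : ℝ) * Real.exp (-(ε ^ 2 * y / (128 * (k : ℝ) ^ 2)))) ∧
    (∀ (Ω : Type) [MeasurableSpace Ω] (P : Measure Ω) [IsProbabilityMeasure P]
      (k : ℕ) (F : Fin k → ℕ → Ω → ℂ), RandomTuple P F → ∀ i : Fin k,
      Tendsto (fun N : ℕ => R P F i (Real.log (Real.log N)) N) atTop atTop →
      ∀ g : ℕ → ℂ, (∀ n, ‖g n‖ ≤ 1) →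
      ∀ᵐ ω ∂P, ∀ h : Fin k → ℕ, Function.Injective h →
        Tendsto (fun N : ℕ => T F g h N ω) atTop (𝓝 0)) ∧
    (∀ (Ω : Type) [MeasurableSpace Ω] (P : Measure Ω) [IsProbabilityMeasure P]
      (k : ℕ) (F : Fin k → ℕ → Ω → ℂ), RandomTuple P F → ∀ (i : Fin k) (w : ℕ → ℝ),
      (∀ᶠ N : ℕ in atTop, Real.log N ≤ w N) →
      Tendsto (fun N : ℕ => R P F i (w N) N) atTop atTop →
      ∀ 𝒢 : ℕ → Finset (ℕ → ℂ), (∀ᶠ N : ℕ in atTop, ((𝒢 N).card : ℝ) ≤ Real.exp (w N)) →
      (∀ N, ∀ g ∈ 𝒢 N, ∀ n, ‖g n‖ ≤ 1) →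
      ∀ᵐ ω ∂P, ∀ ε : ℝ, 0 < ε → ∀ᶠ N : ℕ in atTop, ∀ h : Fin k → ℕ, Function.Injective h →
        (∀ j, (h j : ℝ) ≤ w N) → ∀ g ∈ 𝒢 N, ‖T F g h N ω‖ ≤ ε) := by
  refine ⟨?_, ?_, ?_⟩
  · obtain ⟨C, hC, h⟩ := Pool.Agent.W5h23.CP.one_scale_family
    refine ⟨C, hC, ?_⟩
    intro Ω _ P _ k F hF i 𝒢 hg N y H hN hy hHN hHy ε hε
    have := h P (rm hF) i 𝒢 hg N y H hN hy hHN hHy hε
    rw [← R_eq] at this
    exact this
  · intro Ω _ P _ k F hF i hdiv g hg
    rw [ae_all_iff]
    intro h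
    simp only [R_eq] at hdiv
    by_cases hinj : Function.Injective h
    · filter_upwards [Pool.Agent.W5h23.CP.almost_sure (rm hF) hinj i hdiv hg] with ω hω _
      exact hω
    · exact Filter.Eventually.of_forall fun ω h' => absurd h' hinj
  · intro Ω _ P _ k F hF i w hw hdiv 𝒢 hcard hg
    simp only [R_eq] at hdiv
    exact Pool.Agent.W5h23.CP.families (rm hF) i hw hdiv hcard hg

end Pool.Agent.Results.MP_f3f922_nt.RandomFunctions
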