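import Pool.Agent.W5h23.CP.Short

/-!
# Elliott's conjecture for random multiplicative functions in all short intervals

Let `F_1, …, F_k` be random multiplicative functions with values in the unit disc whose values at
the powers of different primes are independent (some of them may be deterministic, and they may
depend on each other). If `∑_{log N < p ≤ N ^ η} (1 - |E F_i(p)|)/p → ∞` for one `i` and every fixed
`η > 0` (arbitrarily slowly), then almost surely the correlations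
`∑_{x < n ≤ x + l} g(n) ∏ F_j(n + h_j)` are `o(l)` in ALL short intervals with `l ≥ x ^ η`, uniformly
in the shifts up to `log x` and in the weights `g` from families of polynomial size (for instance
`g(n) = e(j n / N²)`, which gives all additive twists).

Method: McDiarmid's inequality on the interval, where the primes `p > y = K log N` contribute
`≤ 32 k² l²/y` to the variance, and a Turán–Kubilius argument for the mean of
`∏_{p ∥ n, p > y} |E F_i(p)|` on the interval.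
-/

set_option autoImplicit false

open MeasureTheory ProbabilityTheory Finset Filter Topology

namespace Pool.Agent.Results.MP_f3f922_nt.RandomShortIntervals

/-- `F 0, …, F (k - 1)` are multiplicative functions with values in the unit disc that depend on a
random `ω ∈ Ω`, and the families of the values `F i (p ^ a)` (`i < k`, `a ≥ 1`) that belong to
different primes `p` are independent of each other. -/
structure RandomTuple {Ω : Type} [MeasurableSpace Ω] (P : Measure Ω) {k : ℕ}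
    (F : Fin k → ℕ → Ω → ℂ) : Prop where
  meas : ∀ i n, Measurable (F i n)
  bdd : ∀ i n ω, ‖F i n ω‖ ≤ 1
  one : ∀ i ω, F i 1 ω = 1
  mul : ∀ i ω m n, Nat.Coprime m n → F i (m * n) ω = F i m ω * F i n ω
  indep : iIndepFun (fun (p : Nat.Primes) (ω : Ω) (q : Fin k × ℕ) =>
    F q.1 ((p : ℕ) ^ (q.2 + 1)) ω) P

/-- `R_i(y, N) = ∑_{y < p ≤ N} (1 - |E F_i(p)|) / p` -/
noncomputable def R {Ω : Type} [MeasurableSpace Ω] (P : Measure Ω) {k : ℕ}
    (F : Fin k → ℕ → Ω → ℂ) (i : Fin k) (y : ℝ) (N : ℕ) : ℝ :=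
  ∑ p ∈ (Icc 1 N).filter (fun p : ℕ => p.Prime ∧ y < (p : ℝ)), (1 - ‖∫ ω, F i p ω ∂P‖) / p

/-- the correlation `∑_{x < n ≤ x + l} g(n) ∏_i F_i(n + h_i)` on an interval -/
noncomputable def S {Ω : Type} {k : ℕ} (F : Fin k → ℕ → Ω → ℂ) (g : ℕ → ℂ) (h : Fin k → ℕ)
    (x l : ℕ) (ω : Ω) : ℂ :=
  ∑ n ∈ Ioc x (x + l), g n * ∏ i, F i (n + h i) ω

theorem R_eq {Ω : Type} [MeasurableSpace Ω] (P : Measure Ω) {k : ℕ}
    (F : Fin k → ℕ → Ω → ℂ) (i : Fin k) (y : ℝ) (N : ℕ) :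
    R P F i y N = Pool.Agent.W5h23.CP.Dw (Pool.Agent.W5h23.CP.mn P F i) y N := by
  unfold R Pool.Agent.W5h23.CP.Dw Pool.Agent.W5h23.CP.mn Pool.Agent.W5h23.CP.PP
  rw [Finset.filter_filter]

theorem rm {Ω : Type} [MeasurableSpace Ω] {P : Measure Ω} {k : ℕ}
    {F : Fin k → ℕ → Ω → ℂ} (h : RandomTuple P F) : Pool.Agent.W5h23.CP.RandMult P F :=
  ⟨h.meas, h.bdd, h.one, h.mul, h.indep⟩

/-- **Theorem.** Let `F` be a tuple of random multiplicative functions.
1. (One interval.) Let `h_1, …, h_k ≤ H` be distinct shifts, `|g| ≤ 1`, `H ≤ y`, `z² ≤ l`,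
`y log₂(x + l + H) ≤ 2 l` and `R_i(y, z) ≥ 1`. Then
`|S| < l (exp(-R_i(y, z)/2) + 16/R_i(y, z) + 1/y + ε) + z` except with probability at most
`4 exp(-ε² y/(256 k²))`.
2. (All intervals.) Suppose that `R_i(log N, N ^ η) → ∞` for some `i` and all `η > 0`, and let `𝒢_N` be
sets of at most `N ^ A` weights bounded by `1`. Then almost surely, for all `η, ε > 0` and all
large `N`, `|S| ≤ ε l` for all `x ≤ N`, `N ^ η ≤ l ≤ N`, all distinct shifts `h_j ≤ log N` and all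
`g ∈ 𝒢_N`. -/
theorem result (Ω : Type) [MeasurableSpace Ω] (P : Measure Ω) [IsProbabilityMeasure P]
    (k : ℕ) (F : Fin k → ℕ → Ω → ℂ) (hF : RandomTuple P F) (i : Fin k) :
    (∀ h : Fin k → ℕ, Function.Injective h → ∀ H : ℕ, (∀ j, h j ≤ H) → ∀ g : ℕ → ℂ,
      (∀ n, ‖g n‖ ≤ 1) → ∀ x l y z : ℕ, 1 ≤ l → 1 ≤ y → H ≤ y → z ^ 2 ≤ l →
      y * Nat.log 2 (x + l + H) ≤ 2 * l → 1 ≤ R P F i y z → ∀ ε : ℝ, 0 ≤ ε →
      P.real {ω | l * (Real.exp (-(R P F i y z / 2)) + 16 / R P F i y z + 1 / y) + z + ε * l ≤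
        ‖S F g h x l ω‖} ≤ 4 * Real.exp (-(ε ^ 2 * y / (256 * (k : ℝ) ^ 2)))) ∧
    ((∀ η : ℝ, 0 < η → Tendsto (fun N : ℕ => R P F i (Real.log N) ⌊(N : ℝ) ^ η⌋₊) atTop atTop) →
      ∀ (A : ℕ) (𝒢 : ℕ → Finset (ℕ → ℂ)), (∀ᶠ N : ℕ in atTop, (𝒢 N).card ≤ N ^ A) →
      (∀ N, ∀ g ∈ 𝒢 N, ∀ n, ‖g n‖ ≤ 1) →
      ∀ᵐ ω ∂P, ∀ η : ℝ, 0 < η → ∀ ε : ℝ, 0 < ε → ∀ᶠ N : ℕ in atTop, ∀ x l : ℕ, x ≤ N →
        (N : ℝ) ^ η ≤ l → l ≤ N → ∀ h : Fin k → ℕ, Function.Injective h →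
        (∀ j, (h j : ℝ) ≤ Real.log N) → ∀ g ∈ 𝒢 N, ‖S F g h x l ω‖ ≤ ε * l) := by
  refine ⟨?_, ?_⟩
  · intro h hinj H hH g hg x l y z hl hy hHy hz hlog hR ε hε
    rw [R_eq] at hR
    have := Pool.Agent.W5h23.CP.one_interval (rm hF) hinj hH i hg x l y z hl hy hHy hz hlog hR hε
    rw [← R_eq] at this
    exact this
  · intro hdiv A 𝒢 hcard hg
    simp only [R_eq] at hdiv
    exact Pool.Agent.W5h23.CP.short_as (rm hF) i hdiv A hcard hg

end Pool.Agent.Results.MP_f3f922_nt.RandomShortIntervals
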