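import Pool.Agent.W5h23.EL.Main

/-!
# Correlations of a multiplicative function with arbitrary functions, uniformly, for almost all shifts near the values of
a smooth function or of a polynomial

`(1)` and `(4)`: for EVERY function `w` with integral values that stays within a bounded distance of a smooth function `φ`
(for instance `⌊β t ^ s⌋`, `s` not a natural number, or `⌊β log t⌋`) or of a polynomial, the correlations
`∑ n ≤ x, F_l(n) f(n + w(m))` are small for almost all `m` in every set of positive density: uniformly in the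
multiplicative function `f` with small means in progressions, with arbitrary bounded functions `F_l`. The criterion
in terms of the additive energy is `Pool.Agent.W5h80.Ell` (the result `ThinFamiliesOfShifts`); the energies of smooth functions come
from van der Corput's method (`Pool.Agent.W5h23.SF`), those of polynomials from the starting files; a bounded perturbation
changes an energy at most by a constant factor (`Pool.Agent.W5h23.EL.energy_pert`).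
-/

set_option autoImplicit false

namespace Pool.Agent.Results.MP_f3f922_nt.ShiftsNearSmoothFunctions

open Finset Polynomial

/-- Multiplicative functions with values in the closed unit disc. -/
def Mult (f : ℕ → ℂ) : Prop :=
  (∀ n, ‖f n‖ ≤ 1) ∧ ∀ m n : ℕ, 1 ≤ m → 1 ≤ n → Nat.Coprime m n → f (m * n) = f m * f n

/-- The sums of `f` over all initial segments up to `Z` of all arithmetic progressions of modulus at most `A` are at
most `Z / A` in absolute value. -/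
def SmallMeans (f : ℕ → ℂ) (A Z : ℕ) : Prop := ∀ q r : ℕ, 1 ≤ q → q ≤ A → ∀ M : ℕ, M ≤ Z →
  ‖∑ n ∈ (Icc 1 M).filter (fun n => n ≡ r [MOD q]), f n‖ ≤ Z / A

/-- The extension of `f` by zero to the integers `m ≤ 0`. -/
noncomputable def ext (f : ℕ → ℂ) (m : ℤ) : ℂ := if 1 ≤ m then f m.toNat else 0

open Classical in
/-- For all but at most `ε #S` of the `m ∈ S` the correlation sums `∑ n ≤ x, F l n * f (n + w m)` are at most `ε N` in absolute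
value for all `l` and all `x ≤ B N`. -/
def FewExceptions (B N : ℕ) (ε : ℝ) (f : ℕ → ℂ) {L : ℕ} (F : Fin L → ℕ → ℂ) (S : Finset ℕ) (w : ℕ → ℤ) : Prop :=
  ((S.filter fun m => ∃ l, ∃ x : ℕ, x ≤ B * N ∧ ε * N < ‖∑ n ∈ Icc 1 x, F l n * ext f (n + w m)‖).card : ℝ) ≤
    ε * S.card

/-- `φ` varies on `[M, 2 M]` like a function of size `V` of the variable `t / M`: the functions `D j` are the successive
derivatives of `φ = D 0`, and `c0 V ≤ |φ⁽ʲ⁾(t)| M ^ j ≤ C0 V` for `1 ≤ j ≤ K`. -/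
def Smooth (K : ℕ) (c0 C0 M V : ℝ) (φ : ℝ → ℝ) : Prop :=
  ∃ D : ℕ → ℝ → ℝ, D 0 = φ ∧ (∀ j ≤ K, ∀ t ∈ Set.Icc M (2 * M), HasDerivAt (D j) (D (j + 1) t) t) ∧
    ∀ j, 1 ≤ j → j ≤ K → ∀ t ∈ Set.Icc M (2 * M), c0 * V ≤ |D j t| * M ^ j ∧ |D j t| * M ^ j ≤ C0 * V

theorem result :
    -- (1) shifts `w m` with `|w m - φ m| ≤ T`, `φ` smooth of size `V ≥ N / T`, `V ≤ M ^ Q`
    (∀ (Q B L T : ℕ) (c0 C0 ε : ℝ), 1 ≤ Q → 1 ≤ B → 1 ≤ T → 0 < c0 → 1 ≤ C0 → 0 < ε → ∃ A N₀ : ℕ, 1 ≤ A ∧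
      ∀ N : ℕ, N₀ ≤ N → ∀ f : ℕ → ℂ, Mult f → SmallMeans f A (2 * B * N) →
      ∀ F : Fin L → ℕ → ℂ, (∀ l n, ‖F l n‖ ≤ 1) →
      ∀ (M : ℕ) (V : ℝ) (φ : ℝ → ℝ), (N : ℝ) ≤ T * V → V ≤ (M : ℝ) ^ Q → Smooth (Q + 2) c0 C0 M V φ →
      ∀ S : Finset ℕ, S ⊆ Ico M (2 * M) → M ≤ T * S.card →
      ∀ w : ℕ → ℤ, (∀ m ∈ S, |(w m : ℝ) - φ m| ≤ T) → (∀ m ∈ S, |w m| ≤ B * N) → FewExceptions B N ε f F S w) ∧
    -- (2), (3) examples of smooth functions
    (∀ (s : ℝ) (K : ℕ), (∀ k : ℕ, s ≠ k) → ∃ c0 C0 : ℝ, 0 < c0 ∧ 1 ≤ C0 ∧ ∀ M β : ℝ, 0 < M → β ≠ 0 →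
      Smooth K c0 C0 M (|β| * M ^ s) (fun t => β * t ^ s)) ∧
    (∀ K : ℕ, ∃ c0 C0 : ℝ, 0 < c0 ∧ 1 ≤ C0 ∧ ∀ M β : ℝ, 0 < M → β ≠ 0 →
      Smooth K c0 C0 M |β| (fun t => β * Real.log t)) ∧
    -- (4) shifts `w m` with `|w m - P(m)| ≤ T`, `P` a polynomial, `m ≤ M`, `M ^ deg P ≥ N / T`
    (∀ (P : ℤ[X]) (B L T : ℕ) (ε : ℝ), 1 ≤ P.natDegree → 1 ≤ B → 1 ≤ T → 0 < ε → ∃ A N₀ : ℕ, 1 ≤ A ∧
      ∀ N : ℕ, N₀ ≤ N → ∀ f : ℕ → ℂ, Mult f → SmallMeans f A (2 * B * N) →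
      ∀ F : Fin L → ℕ → ℂ, (∀ l n, ‖F l n‖ ≤ 1) → ∀ M : ℕ, N ≤ T * M ^ P.natDegree →
      ∀ S : Finset ℕ, S ⊆ Icc 1 M → M ≤ T * S.card →
      ∀ w : ℕ → ℤ, (∀ m ∈ S, |w m - P.eval (m : ℤ)| ≤ T) → (∀ m ∈ S, |w m| ≤ B * N) → FewExceptions B N ε f F S w) :=
  ⟨fun Q B L T c0 C0 ε hQ hB hT hc0 hC0 hε => Pool.Agent.W5h23.EL.ell_smooth Q B L T c0 C0 ε hQ hB hT hc0 hC0 hε,
    fun s K hs => Pool.Agent.W5h23.SF.smooth_rpow s hs K, fun K => Pool.Agent.W5h23.SF.smooth_log K,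
    fun P B L T ε hP hB hT hε => Pool.Agent.W5h23.EL.ell_poly P hP B L T ε hB hT hε⟩

end Pool.Agent.Results.MP_f3f922_nt.ShiftsNearSmoothFunctions
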