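import Pool.Agent.W5h80.Ell.Thin

/-!
# Correlations of a multiplicative function with arbitrary functions, uniformly, for almost all shifts in arbitrary thin
families of minimal additive energy

The inequality of Turán and Kubilius and the estimate of the minor arcs (the method of Daboussi and Kátai) are adapted
from the starting files (`Pool.Agent.TH823.MRS`, `Pool.Agent.R512.G`).
-/

set_option autoImplicit false

namespace Pool.Agent.Results.MP_f3f922_nt.ThinFamiliesOfShifts

open Finset

/-- Multiplicative functions with values in the closed unit disc. -/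
def Mult (f : ℕ → ℂ) : Prop :=
  (∀ n, ‖f n‖ ≤ 1) ∧ ∀ m n : ℕ, 1 ≤ m → 1 ≤ n → Nat.Coprime m n → f (m * n) = f m * f n

/-- The sums of `f` over all initial segments up to `Z` of all arithmetic progressions of modulus at most `A` are at
most `Z / A` in absolute value. -/
def SmallMeans (f : ℕ → ℂ) (A Z : ℕ) : Prop := ∀ q r : ℕ, 1 ≤ q → q ≤ A → ∀ M : ℕ, M ≤ Z →
  ‖∑ n ∈ (Icc 1 M).filter (fun n => n ≡ r [MOD q]), f n‖ ≤ Z / A

/-- The extension of `f` by zero to the integers `m ≤ 0`. -/
noncomputable def ext (f : ℕ → ℂ) (m : ℤ) : ℂ := if 1 ≤ m then f m.toNat else 0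

/-- The additive energy of order `h` of a finite family `v i` (`i ∈ ι`) of integers: the number of solutions of
`v (a 1) + ... + v (a h) = v (b 1) + ... + v (b h)`. -/
noncomputable def energy (h : ℕ) {ι : Type} (v : ι → ℤ) : ℕ :=
  Nat.card {q : (Fin h → ι) × (Fin h → ι) // ∑ j, v (q.1 j) = ∑ j, v (q.2 j)}

/-- The number of the members `v i` of the family such that the correlation sum `∑ n ≤ x, F l n * f (n + v i)` is larger
than `Δ` in absolute value for some `l` and some `x ≤ Z`. -/
noncomputable def exceptions (Z : ℕ) (Δ : ℝ) (f : ℕ → ℂ) {L : ℕ} (F : Fin L → ℕ → ℂ) {ι : Type} (v : ι → ℤ) : ℕ :=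
  Nat.card {i : ι // ∃ l, ∃ x : ℕ, x ≤ Z ∧ Δ < ‖∑ n ∈ Icc 1 x, F l n * ext f (n + v i)‖}

/-- Let `h ≥ 1`, `B ≥ 1`, `L`, `K` and `ε > 0` be fixed. There are `A` and `N₀` such that for all `N ≥ N₀` the following
holds. Let `f` be ANY multiplicative function with values in the unit disc whose means over all initial segments up to
`2 B N` of all progressions of modulus at most `A` are small. Let `F 1, …, F L` be ARBITRARY functions bounded by `1` (for
example products of shifted multiplicative functions `f_2 (n + h_2) ⋯ f_k (n + h_k)`), and let `v i` (`i ∈ ι`) be an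
ARBITRARY finite family of integers of absolute value at most `B N` whose additive energy of order `h` is minimal up to a
constant: it is at most `K #ι ^ (2 h) / N`. Then all the members `y` of the family, except for at most `ε #ι` of them,
satisfy `|∑ n ≤ x, F l n * f (n + y)| ≤ ε N` for all `l` and all `x ≤ B N`. -/
theorem result (h B L : ℕ) (K ε : ℝ) (hh : 1 ≤ h) (hB : 1 ≤ B) (hε : 0 < ε) : ∃ A N₀ : ℕ, 1 ≤ A ∧
    ∀ N : ℕ, N₀ ≤ N → ∀ f : ℕ → ℂ, Mult f → SmallMeans f A (2 * B * N) →
    ∀ F : Fin L → ℕ → ℂ, (∀ l n, ‖F l n‖ ≤ 1) →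
    ∀ (ι : Type) [Fintype ι] (v : ι → ℤ), (∀ i, |v i| ≤ B * N) →
      (energy h v : ℝ) * N ≤ K * (Fintype.card ι : ℝ) ^ (2 * h) →
      (exceptions (B * N) (ε * N) f F v : ℝ) ≤ ε * Fintype.card ι := by
  obtain ⟨A, N₀, hA, h1⟩ := Pool.Agent.W5h80.Ell.thin_ell h B L K ε hh hB hε
  exact ⟨A, N₀, hA, fun N hN f hf hm F hF ι _ v hv hE => h1 N hN f hf hm ι v hv hE F hF⟩

end Pool.Agent.Results.MP_f3f922_nt.ThinFamiliesOfShifts
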